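import Pool.Agent.SYB.Defs
import Pool.Agent.SYL.Dl
import Pool.Agent.SYL.Hull
import Pool.Agent.SYL.Vdet
import Pool.Agent.SYL.VProp
import Pool.Agent.SYL.Bonf
import Pool.Agent.SYL.Phi
import Pool.Agent.SYL.Phis

/-! # Local maximisers: the basic inequalities for cuts and additions -/

set_option autoImplicit false

namespace Pool.Agent.SYB

open MeasureTheory Set Pool.Agent.SYL

theorem hV : St_V := thm_V (thm_Vdet thm_hull thm_Dl) thm_hull thm_Dl

theorem Bi_bonf : St_bonf := thm_bonf hV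

theorem Bi_volpos {d : ℕ} {D : Set (Fin d → ℝ)} (hD : IsBody D) : 0 < vol D := by
  rw [vol, ENNReal.toReal_pos_iff]
  refine ⟨?_, hD.2.1.measure_lt_top⟩
  exact (isOpen_interior.measure_pos volume hD.2.2).trans_le (measure_mono interior_subset)

theorem Bi_phi_cont {d : ℕ} {D : Set (Fin d → ℝ)} (hD : IsCompact D) : Continuous (phi D) :=
  continuous_parametric_integral_of_continuous (f := fun (x : Fin d → ℝ)
      (y : Fin d → (Fin d → ℝ)) => V (Fin.cons x y : Fin (d + 1) → (Fin d → ℝ)))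
      (Phi_cont (hV d).1) (Phi_cpt hD)

theorem Bi_phi_conv {d : ℕ} {D : Set (Fin d → ℝ)} (hD : IsCompact D) :
    ConvexOn ℝ univ (phi D) := by
  obtain ⟨hVc, hVx, -, -, -, -⟩ := hV d
  refine ⟨convex_univ, ?_⟩
  intro x _ x' _ a b ha hb hab
  simp only [smul_eq_mul]
  unfold phi
  rw [← integral_const_mul, ← integral_const_mul, ← integral_add ((Phi_int hD hVc x).const_mul a)
    ((Phi_int hD hVc x').const_mul b)]
  refine integral_mono (Phi_int hD hVc _) (((Phi_int hD hVc x).const_mul a).add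
    ((Phi_int hD hVc x').const_mul b)) fun y => ?_
  have := (hVx y).2 (Set.mem_univ x) (Set.mem_univ x') ha hb hab
  simpa only [smul_eq_mul] using this

theorem Bi_phi_mono {d : ℕ} {D K : Set (Fin d → ℝ)} (hK : IsCompact K) (h : D ⊆ K)
    (x : Fin d → ℝ) : phi D x ≤ phi K x := by
  unfold phi
  refine setIntegral_mono_set (Phi_int hK (hV d).1 x)
    (Filter.Eventually.of_forall fun y => (hV d).2.2.2.2.1 _) ?_
  have hs : (Set.pi univ fun _ : Fin d => D) ⊆ (Set.pi univ fun _ : Fin d => K) :=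
    fun y hy => fun i hi => h (hy i hi)
  exact hs.eventuallyLE

theorem Bi_sdiff {d : ℕ} {D K : Set (Fin d → ℝ)} (hK : IsCompact K) (hD : IsCompact D)
    (h : D ⊆ K) : vol K = vol D + vol (K \ D) := by
  have h1 := measure_sdiff_add_inter (μ := (volume : Measure (Fin d → ℝ))) K hD.measurableSet
  rw [inter_eq_right.2 h] at h1
  unfold vol
  rw [← h1, ENNReal.toReal_add, add_comm]
  · exact ((measure_mono sdiff_subset).trans_lt hK.measure_lt_top).ne
  · exact hD.measure_lt_top.ne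

theorem Bi_phi_G {d : ℕ} {D : Set (Fin d → ℝ)} (hD : IsCompact D) :
    ∫ x in D, phi D x = G d D := by
  have h1 := Bonf_int D ∅ hD MeasurableSet.empty (hV d).1 (hV d).2.2.2.1 0
  rw [sdiff_empty] at h1
  rw [← h1]
  unfold G
  congr 2
  ext x
  simp [Bonf_A, Set.mem_pi]

theorem Bi_G_pos {d : ℕ} {D : Set (Fin d → ℝ)} (hD : IsBody D) : 0 < G d D := by
  obtain ⟨z, hz⟩ := hD.2.2
  obtain ⟨r, hr, hr2⟩ := Metric.isOpen_iff.1 isOpen_interior z hz
  set v : Fin (d + 1) → (Fin d → ℝ) :=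
    Fin.cons z (fun i => z + Pi.single i (r / 2)) with hv
  have hvm : ∀ i, v i ∈ interior D := by
    intro i
    refine Fin.cases ?_ (fun j => ?_) i
    · exact hz
    · apply hr2
      rw [hv, Fin.cons_succ, Metric.mem_ball, dist_eq_norm, add_sub_cancel_left, Pi.norm_single,
        Real.norm_eq_abs, abs_of_pos (by positivity)]
      linarith
  have hVv : 0 < V v := by
    rw [thm_Vdet thm_hull thm_Dl d v]
    refine mul_pos (thm_Dl d).2.2 (abs_pos.2 ?_)
    have h1 : (Matrix.of fun i : Fin d => v i.succ - v 0) =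
        Matrix.diagonal (fun _ : Fin d => r / 2) := by
      ext i j
      simp [hv, Matrix.diagonal_apply, Pi.single_apply, eq_comm]
    rw [dt, h1, Matrix.det_diagonal]
    simp only [Finset.prod_const]
    positivity
  refine Phis_pos volume (isCompact_univ_pi fun _ => hD.2.1) ?_ (hV d).1 (hV d).2.2.2.2.1
    (y := v) (fun i _ => interior_subset (hvm i)) hVv
  intro x hx
  have h2 : interior (Set.pi univ fun _ : Fin (d + 1) => D) =
      Set.pi univ fun _ : Fin (d + 1) => interior D := interior_pi_set finite_univ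
  rw [h2, closure_pi_set]
  intro i hi
  rw [hD.1.closure_interior_eq_closure_of_nonempty_interior hD.2.2]
  exact subset_closure (hx i hi)

theorem Bi_pow1 (m : ℕ) (x : ℝ) (h0 : 0 ≤ x) (h1 : x ≤ 1) :
    (1 - x) ^ m ≤ 1 - m * x + (m : ℝ) ^ 2 * x ^ 2 := by
  induction m with
  | zero => simp
  | succ k ih =>
    have h2 : (1 - x) ^ (k + 1) ≤ (1 - k * x + (k : ℝ) ^ 2 * x ^ 2) * (1 - x) := by
      rw [pow_succ]
      exact mul_le_mul_of_nonneg_right ih (by linarith)
    refine h2.trans ?_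
    push_cast
    have hk : (0 : ℝ) ≤ k := Nat.cast_nonneg k
    have e1 : 0 ≤ (k : ℝ) ^ 2 * x ^ 3 := by positivity
    have e2 : 0 ≤ (k : ℝ) * x ^ 2 := by positivity
    nlinarith [sq_nonneg x]

theorem Bi_pow2 (m : ℕ) (x : ℝ) (h0 : 0 ≤ x) (h1 : x ≤ 1) :
    (1 + x) ^ m ≤ 1 + m * x + (4 : ℝ) ^ m * x ^ 2 := by
  induction m with
  | zero =>
    simp
    positivity
  | succ k ih =>
    have h2 : (1 + x) ^ (k + 1) ≤ (1 + k * x + (4 : ℝ) ^ k * x ^ 2) * (1 + x) := by
      rw [pow_succ]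
      exact mul_le_mul_of_nonneg_right ih (by linarith)
    refine h2.trans ?_
    have hk : (k : ℝ) ≤ (4 : ℝ) ^ k := by
      have := Nat.lt_pow_self (n := k) (show 1 < 4 by norm_num)
      exact_mod_cast this.le
    have e1 : (4 : ℝ) ^ k * x ^ 3 ≤ (4 : ℝ) ^ k * x ^ 2 := by
      apply mul_le_mul_of_nonneg_left _ (by positivity)
      nlinarith [sq_nonneg x]
    have e2 : (k : ℝ) * x ^ 2 ≤ (4 : ℝ) ^ k * x ^ 2 :=
      mul_le_mul_of_nonneg_right hk (sq_nonneg x)
    have e3 : 0 ≤ (4 : ℝ) ^ k * x ^ 2 := by positivity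
    have e4 : (4 : ℝ) ^ (k + 1) = 4 ^ k * 4 := pow_succ _ _
    rw [e4]
    push_cast
    have e5 : (1 + (k : ℝ) * x + (4 : ℝ) ^ k * x ^ 2) * (1 + x) =
        1 + ((k : ℝ) + 1) * x + ((k : ℝ) * x ^ 2 + 4 ^ k * x ^ 2 + 4 ^ k * x ^ 3) := by ring
    rw [e5]
    linarith

/-- cuts -/
theorem Bi_cut {d : ℕ} {D : Set (Fin d → ℝ)} (hL : LocMax d D) :
    ∃ C δ : ℝ, 0 < C ∧ 0 < δ ∧ ∀ K : Set (Fin d → ℝ), IsBody K → K ⊆ D → vol (D \ K) < δ →
      - (C * vol (D \ K) ^ 2) ≤ ∫ x in D \ K, (phi D x - tau d D) := by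
  obtain ⟨hD, ε, hε, hmax⟩ := hL
  have hv := Bi_volpos hD
  have hG := Bi_G_pos hD
  have hd : (0 : ℝ) < (d : ℝ) + 1 := by positivity
  refine ⟨G d D * ((d : ℝ) + 2) ^ 2 / (vol D ^ 2 * ((d : ℝ) + 1)), ε, by positivity, hε, ?_⟩
  intro K hK hKD hu
  set u := vol (D \ K) with hudef
  have hu0 : 0 ≤ u := ENNReal.toReal_nonneg
  have hsd := Bi_sdiff hD.2.1 hK.2.1 hKD
  rw [← hudef] at hsd
  have hvK := Bi_volpos hK
  have h1 : Sylv d K ≤ Sylv d D := by
    refine hmax K hK (Or.inl hKD) ?_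
    rw [hsd, abs_sub_comm, add_sub_cancel_left, abs_of_nonneg hu0]
    exact hu
  have h2 := (Bi_bonf d D K hD.2.1 hD.1 hK.2.1.measurableSet hKD).1
  have h3 : G d K * vol D ^ (d + 2) ≤ G d D * vol K ^ (d + 2) := by
    unfold Sylv at h1
    have e1 : ((d : ℝ) + 2) / vol K ^ (d + 2) * G d K =
        ((d : ℝ) + 2) * (G d K / vol K ^ (d + 2)) := by ring
    have e2 : ((d : ℝ) + 2) / vol D ^ (d + 2) * G d D =
        ((d : ℝ) + 2) * (G d D / vol D ^ (d + 2)) := by ring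
    rw [e1, e2] at h1
    have h4 := le_of_mul_le_mul_left h1 (by positivity : (0 : ℝ) < (d : ℝ) + 2)
    rwa [div_le_div_iff₀ (by positivity) (by positivity)] at h4
  set x := u / vol D with hx
  have hx0 : 0 ≤ x := by positivity
  have hx1 : x ≤ 1 := by
    rw [hx, div_le_one hv]
    linarith
  have h4 : vol K = vol D * (1 - x) := by
    rw [hx]
    field_simp
    linarith
  have h5 : G d K ≤ G d D * (1 - x) ^ (d + 2) := by
    rw [h4, mul_pow] at h3
    have : G d K * vol D ^ (d + 2) ≤ (G d D * (1 - x) ^ (d + 2)) * vol D ^ (d + 2) := by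
      calc _ ≤ _ := h3
        _ = _ := by ring
    exact le_of_mul_le_mul_right this (by positivity)
  have h6 := Bi_pow1 (d + 2) x hx0 hx1
  push_cast at h6
  have h7 : G d K ≤ G d D * (1 - ((d : ℝ) + 2) * x + ((d : ℝ) + 2) ^ 2 * x ^ 2) :=
    h5.trans (mul_le_mul_of_nonneg_left h6 hG.le)
  have hint : IntegrableOn (phi D) (D \ K) :=
    ((Bi_phi_cont hD.2.1).continuousOn.integrableOn_compact hD.2.1).mono_set sdiff_subset
  have hfin : volume (D \ K) ≠ ⊤ := ((measure_mono sdiff_subset).trans_lt hD.2.1.measure_lt_top).ne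
  have h8 : ∫ x in D \ K, (phi D x - tau d D) = (∫ x in D \ K, phi D x) - tau d D * u := by
    rw [integral_sub hint (integrableOn_const hfin)]
    rw [setIntegral_const, smul_eq_mul, mul_comm]
    rfl
  rw [h8]
  have h9 : ((d : ℝ) + 1) * (tau d D * u) = G d D * (((d : ℝ) + 2) * x) := by
    rw [tau, hx]
    field_simp
  have h10 : ((d : ℝ) + 1) * (G d D * ((d : ℝ) + 2) ^ 2 / (vol D ^ 2 * ((d : ℝ) + 1)) * u ^ 2) =
      G d D * (((d : ℝ) + 2) ^ 2 * x ^ 2) := by
    rw [hx]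
    field_simp
  have h11 : ((d : ℝ) + 1) * (-(G d D * ((d : ℝ) + 2) ^ 2 / (vol D ^ 2 * ((d : ℝ) + 1)) * u ^ 2)) ≤
      ((d : ℝ) + 1) * ((∫ x in D \ K, phi D x) - tau d D * u) := by
    rw [mul_neg, h10, mul_sub, h9]
    nlinarith
  exact le_of_mul_le_mul_left h11 hd

/-- additions -/
theorem Bi_add {d : ℕ} {D : Set (Fin d → ℝ)} (hL : LocMax d D) :
    ∃ C δ : ℝ, 0 < C ∧ 0 < δ ∧ ∀ K : Set (Fin d → ℝ), IsBody K → D ⊆ K → vol (K \ D) < δ →
      ∫ x in K \ D, (phi D x - tau d D) ≤ C * vol (K \ D) ^ 2 := by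
  obtain ⟨hD, ε, hε, hmax⟩ := hL
  have hv := Bi_volpos hD
  have hG := Bi_G_pos hD
  have hd : (0 : ℝ) < (d : ℝ) + 1 := by positivity
  refine ⟨G d D * 4 ^ (d + 2) / (vol D ^ 2 * ((d : ℝ) + 1)) + d * (2 * vol D) ^ d,
    min ε (vol D), by positivity, lt_min hε hv, ?_⟩
  intro K hK hDK hu
  set u := vol (K \ D) with hudef
  have hu0 : 0 ≤ u := ENNReal.toReal_nonneg
  have hsd := Bi_sdiff hK.2.1 hD.2.1 hDK
  rw [← hudef] at hsd
  have hvK := Bi_volpos hK
  have h1 : Sylv d K ≤ Sylv d D := by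
    refine hmax K hK (Or.inr hDK) ?_
    rw [hsd, add_sub_cancel_left, abs_of_nonneg hu0]
    exact hu.trans_le (min_le_left _ _)
  have h2 := (Bi_bonf d K D hK.2.1 hK.1 hD.2.1.measurableSet hDK).2
  have h3 : G d K * vol D ^ (d + 2) ≤ G d D * vol K ^ (d + 2) := by
    unfold Sylv at h1
    have e1 : ((d : ℝ) + 2) / vol K ^ (d + 2) * G d K =
        ((d : ℝ) + 2) * (G d K / vol K ^ (d + 2)) := by ring
    have e2 : ((d : ℝ) + 2) / vol D ^ (d + 2) * G d D =
        ((d : ℝ) + 2) * (G d D / vol D ^ (d + 2)) := by ring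
    rw [e1, e2] at h1
    have h4 := le_of_mul_le_mul_left h1 (by positivity : (0 : ℝ) < (d : ℝ) + 2)
    rwa [div_le_div_iff₀ (by positivity) (by positivity)] at h4
  have huv : u < vol D := hu.trans_le (min_le_right _ _)
  set x := u / vol D with hx
  have hx0 : 0 ≤ x := by positivity
  have hx1 : x ≤ 1 := by
    rw [hx, div_le_one hv]
    linarith
  have h4 : vol K = vol D * (1 + x) := by
    rw [hx]
    field_simp
    linarith
  have h5 : G d K ≤ G d D * (1 + x) ^ (d + 2) := by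
    rw [h4, mul_pow] at h3
    have : G d K * vol D ^ (d + 2) ≤ (G d D * (1 + x) ^ (d + 2)) * vol D ^ (d + 2) := by
      calc _ ≤ _ := h3
        _ = _ := by ring
    exact le_of_mul_le_mul_right this (by positivity)
  have h6 := Bi_pow2 (d + 2) x hx0 hx1
  push_cast at h6
  have h7 : G d K ≤ G d D * (1 + ((d : ℝ) + 2) * x + 4 ^ (d + 2) * x ^ 2) :=
    h5.trans (mul_le_mul_of_nonneg_left h6 hG.le)
  have hint : ∀ f : (Fin d → ℝ) → ℝ, Continuous f → IntegrableOn f (K \ D) := fun f hf =>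
    (hf.continuousOn.integrableOn_compact hK.2.1).mono_set sdiff_subset
  have hfin : volume (K \ D) ≠ ⊤ := ((measure_mono sdiff_subset).trans_lt hK.2.1.measure_lt_top).ne
  have h8 : ∫ x in K \ D, (phi D x - tau d D) = (∫ x in K \ D, phi D x) - tau d D * u := by
    rw [integral_sub (hint _ (Bi_phi_cont hD.2.1)) (integrableOn_const hfin)]
    rw [setIntegral_const, smul_eq_mul, mul_comm]
    rfl
  rw [h8]
  have h12 : ∫ x in K \ D, phi D x ≤ ∫ x in K \ D, phi K x :=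
    integral_mono (hint _ (Bi_phi_cont hD.2.1)) (hint _ (Bi_phi_cont hK.2.1))
      (fun x => Bi_phi_mono hK.2.1 hDK x)
  have h9 : ((d : ℝ) + 1) * (tau d D * u) = G d D * (((d : ℝ) + 2) * x) := by
    rw [tau, hx]
    field_simp
  have h10 : ((d : ℝ) + 1) * (G d D * 4 ^ (d + 2) / (vol D ^ 2 * ((d : ℝ) + 1)) * u ^ 2) =
      G d D * (4 ^ (d + 2) * x ^ 2) := by
    rw [hx]
    field_simp
  have h13 : vol K ^ d ≤ (2 * vol D) ^ d := by
    apply pow_le_pow_left₀ hvK.le
    linarith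
  have h14 : ((d : ℝ) + 1) * d * vol K ^ d * u ^ 2 ≤
      ((d : ℝ) + 1) * (d * (2 * vol D) ^ d * u ^ 2) := by
    have : ((d : ℝ) + 1) * (d * (2 * vol D) ^ d * u ^ 2) =
        (((d : ℝ) + 1) * d) * (2 * vol D) ^ d * u ^ 2 := by ring
    rw [this]
    apply mul_le_mul_of_nonneg_right _ (sq_nonneg u)
    apply mul_le_mul_of_nonneg_left h13
    positivity
  have h11 : ((d : ℝ) + 1) * ((∫ x in K \ D, phi D x) - tau d D * u) ≤ ((d : ℝ) + 1) *
      ((G d D * 4 ^ (d + 2) / (vol D ^ 2 * ((d : ℝ) + 1)) + d * (2 * vol D) ^ d) * u ^ 2) := by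
    have e1 : ((d : ℝ) + 1) *
      ((G d D * 4 ^ (d + 2) / (vol D ^ 2 * ((d : ℝ) + 1)) + d * (2 * vol D) ^ d) * u ^ 2) =
      ((d : ℝ) + 1) * (G d D * 4 ^ (d + 2) / (vol D ^ 2 * ((d : ℝ) + 1)) * u ^ 2) +
      ((d : ℝ) + 1) * (d * (2 * vol D) ^ d * u ^ 2) := by ring
    rw [e1, h10, mul_sub, h9]
    have e2 : ((d : ℝ) + 1) * ∫ x in K \ D, phi D x ≤ ((d : ℝ) + 1) * ∫ x in K \ D, phi K x :=
      mul_le_mul_of_nonneg_left h12 hd.le
    nlinarith
  exact le_of_mul_le_mul_left h11 hd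

/-- an interior point below the level -/
theorem Bi_low {d : ℕ} {D : Set (Fin d → ℝ)} (hD : IsBody D) :
    ∃ z ∈ interior D, phi D z < tau d D := by
  by_contra hcon
  push Not at hcon
  have hv := Bi_volpos hD
  have hG := Bi_G_pos hD
  have h1 : ∀ z ∈ D, tau d D ≤ phi D z := by
    intro z hz
    have h2 : z ∈ closure (interior D) := by
      rw [hD.1.closure_interior_eq_closure_of_nonempty_interior hD.2.2]
      exact subset_closure hz
    have h3 : IsClosed {z | tau d D ≤ phi D z} :=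
      isClosed_le continuous_const (Bi_phi_cont hD.2.1)
    exact h3.closure_subset_iff.2 (fun y hy => hcon y hy) h2
  have h4 : tau d D * vol D ≤ ∫ x in D, phi D x := by
    have h5 : ∫ _ in D, tau d D = tau d D * vol D := by
      rw [setIntegral_const, smul_eq_mul, mul_comm]
      rfl
    rw [← h5]
    exact setIntegral_mono_on (integrableOn_const hD.2.1.measure_lt_top.ne)
      ((Bi_phi_cont hD.2.1).continuousOn.integrableOn_compact hD.2.1) hD.2.1.measurableSet h1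
  rw [Bi_phi_G hD.2.1] at h4
  have h6 : tau d D * vol D = ((d : ℝ) + 2) / ((d : ℝ) + 1) * G d D := by
    rw [tau]
    field_simp
  rw [h6] at h4
  have h7 : 1 < ((d : ℝ) + 2) / ((d : ℝ) + 1) := by
    rw [lt_div_iff₀ (by positivity)]
    linarith
  nlinarith

end Pool.Agent.SYB
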