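import Pool.Agent.SYL.Defs

/-! # Sylvester problem, upper side: boundary structure of local maximisers (definitions) -/

namespace Pool.Agent.SYB

open MeasureTheory Set Pool.Agent.SYL

noncomputable section

/-- the critical level of the mean volume function -/
def tau (d : ℕ) (D : Set (Fin d → ℝ)) : ℝ :=
  ((d : ℝ) + 2) / ((d : ℝ) + 1) * (G d D / vol D)

/-- `D` is a convex body whose Sylvester functional is maximal among the convex bodies of nearly the
same volume which contain `D` or are contained in `D` -/
def LocMax (d : ℕ) (D : Set (Fin d → ℝ)) : Prop :=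
  IsBody D ∧ ∃ ε : ℝ, 0 < ε ∧ ∀ K : Set (Fin d → ℝ), IsBody K → (K ⊆ D ∨ D ⊆ K) →
    |vol K - vol D| < ε → Sylv d K ≤ Sylv d D

end

end Pool.Agent.SYB
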