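import Mathlib

/-! # Convex geometry for the boundary structure of local maximisers -/

set_option autoImplicit false

namespace Pool.Agent.SYB

open MeasureTheory Set
open scoped Pointwise

theorem Geo_hull_compact {d : ℕ} {S : Set (Fin d → ℝ)} (hS : IsCompact S) :
    IsCompact (convexHull ℝ S) := by
  rcases S.eq_empty_or_nonempty with h0 | ⟨s0, hs0⟩
  · rw [h0, convexHull_empty]
    exact isCompact_empty
  set Φ : (Fin (d + 1) → ℝ) × (Fin (d + 1) → (Fin d → ℝ)) → (Fin d → ℝ) :=
    fun p => ∑ i, p.1 i • p.2 i with hΦ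
  have hc : Continuous Φ := by
    refine continuous_finsetSum _ fun i _ => ?_
    exact ((continuous_apply i).comp continuous_fst).smul ((continuous_apply i).comp continuous_snd)
  have hK : IsCompact (stdSimplex ℝ (Fin (d + 1)) ×ˢ (Set.pi univ fun _ : Fin (d + 1) => S)) :=
    (isCompact_stdSimplex ℝ (Fin (d + 1))).prod (isCompact_univ_pi fun _ => hS)
  have he : convexHull ℝ S =
      Φ '' (stdSimplex ℝ (Fin (d + 1)) ×ˢ (Set.pi univ fun _ : Fin (d + 1) => S)) := by
    apply Subset.antisymm
    · intro x hx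
      obtain ⟨ι, hι, z, w, hz, hai, hw, hw1, hwx⟩ := eq_pos_convex_span_of_mem_convexHull hx
      have hcard : Fintype.card ι ≤ Fintype.card (Fin (d + 1)) := by
        have h1 := hai.card_le_finrank_succ
        have h2 : Module.finrank ℝ (vectorSpan ℝ (range z)) ≤ d := by
          have := Submodule.finrank_le (vectorSpan ℝ (range z))
          rwa [Module.finrank_fin_fun] at this
        rw [Fintype.card_fin]
        omega
      obtain ⟨e⟩ := Function.Embedding.nonempty_of_card_le hcard
      have hsum : ∀ {M : Type} [AddCommMonoid M] (F : Fin (d + 1) → M),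
          (∀ j, (¬ ∃ i, e i = j) → F j = 0) → ∑ j, F j = ∑ i, F (e i) := by
        intro M _ F hF
        rw [← Finset.sum_map Finset.univ e F]
        symm
        apply Finset.sum_subset (Finset.subset_univ _)
        intro j _ hj
        apply hF
        rintro ⟨i, hi⟩
        exact hj (Finset.mem_map.2 ⟨i, Finset.mem_univ i, hi⟩)
      refine ⟨(Function.extend e w 0, Function.extend e z (fun _ => s0)), ⟨⟨?_, ?_⟩, ?_⟩, ?_⟩
      · intro j
        by_cases hj : ∃ i, e i = j
        · obtain ⟨i, rfl⟩ := hj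
          show 0 ≤ Function.extend e w 0 (e i)
          rw [e.injective.extend_apply]
          exact (hw i).le
        · show 0 ≤ Function.extend e w 0 j
          rw [Function.extend_apply' _ _ _ hj]
          simp
      · show ∑ j, Function.extend e w 0 j = 1
        rw [hsum _ (fun j hj => by rw [Function.extend_apply' _ _ _ hj]; simp), ← hw1]
        exact Finset.sum_congr rfl fun i _ => e.injective.extend_apply _ _ _
      · intro j _
        show Function.extend e z (fun _ => s0) j ∈ S
        by_cases hj : ∃ i, e i = j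
        · obtain ⟨i, rfl⟩ := hj
          rw [e.injective.extend_apply]
          exact hz (mem_range_self i)
        · rw [Function.extend_apply' _ _ _ hj]
          exact hs0
      · show ∑ j, Function.extend e w 0 j • Function.extend e z (fun _ => s0) j = x
        rw [hsum _ (fun j hj => by rw [Function.extend_apply' _ _ _ hj]; simp), ← hwx]
        refine Finset.sum_congr rfl fun i _ => ?_
        rw [e.injective.extend_apply, e.injective.extend_apply]
    · rintro _ ⟨p, ⟨hp1, hp2⟩, rfl⟩
      exact (convex_convexHull ℝ S).sum_mem (fun i _ => hp1.1 i) hp1.2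
        (fun i _ => subset_convexHull ℝ S (hp2 i (mem_univ i)))
  rw [he]
  exact hK.image hc

/-- small caps at extreme points -/
theorem Geo_cap {d : ℕ} {D : Set (Fin d → ℝ)} (hD : IsCompact D) (hc : Convex ℝ D)
    {x : Fin d → ℝ} (hx : x ∈ extremePoints ℝ D) {r : ℝ} (hr : 0 < r) :
    ∃ (f : (Fin d → ℝ) →L[ℝ] ℝ) (u : ℝ), f x < u ∧ ∀ y ∈ D, f y ≤ u → dist y x < r := by
  set S := D \ Metric.ball x r with hS
  have hSc : IsCompact S := hD.diff Metric.isOpen_ball
  have hK : IsCompact (convexHull ℝ S) := Geo_hull_compact hSc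
  have hSD : convexHull ℝ S ⊆ D := convexHull_min sdiff_subset hc
  have hxK : x ∉ convexHull ℝ S := by
    intro h
    have h1 : x ∈ extremePoints ℝ (convexHull ℝ S) :=
      ⟨h, fun y hy z hz hyz => hx.2 (hSD hy) (hSD hz) hyz⟩
    have h2 := extremePoints_convexHull_subset h1
    exact h2.2 (Metric.mem_ball_self hr)
  obtain ⟨f, u, h1, h2⟩ := geometric_hahn_banach_point_closed (convex_convexHull ℝ S)
    hK.isClosed hxK
  refine ⟨f, u, h1, ?_⟩
  intro y hy hyu
  by_contra hcon
  have h3 : y ∈ S := ⟨hy, fun h => hcon (Metric.mem_ball.1 h)⟩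
  exact absurd (h2 y (subset_convexHull ℝ S h3)) (not_lt.2 hyu)

/-- a ray from a point of a compact set meets the frontier -/
theorem Geo_ray {d : ℕ} {D : Set (Fin d → ℝ)} (hD : IsCompact D) {z w : Fin d → ℝ} (hz : z ∈ D)
    (hw : w ≠ 0) : ∃ t : ℝ, 0 ≤ t ∧ z + t • w ∈ frontier D := by
  set T : Set ℝ := {t | 0 ≤ t ∧ z + t • w ∈ D} with hT
  have hcl : IsClosed T :=
    isClosed_Ici.inter (hD.isClosed.preimage (by fun_prop : Continuous fun t : ℝ => z + t • w))
  obtain ⟨R, hR⟩ := hD.isBounded.exists_norm_le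
  have hbdd : BddAbove T := by
    refine ⟨(R + ‖z‖) / ‖w‖, ?_⟩
    rintro t ⟨ht0, ht⟩
    rw [le_div_iff₀ (norm_pos_iff.2 hw)]
    have h1 := hR _ ht
    have h2 : ‖t • w‖ ≤ ‖z + t • w‖ + ‖z‖ := by
      have := norm_sub_le (z + t • w) z
      rwa [add_sub_cancel_left] at this
    rw [norm_smul, Real.norm_eq_abs, abs_of_nonneg ht0] at h2
    linarith
  have hne : T.Nonempty := ⟨0, le_refl _, by simpa using hz⟩
  have hmem : sSup T ∈ T := hcl.csSup_mem hne hbdd
  refine ⟨sSup T, hmem.1, subset_closure hmem.2, ?_⟩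
  intro hint
  have hcont : ContinuousAt (fun t : ℝ => z + t • w) (sSup T) := by fun_prop
  have h1 : ∀ᶠ t in nhds (sSup T), z + t • w ∈ interior D :=
    hcont.eventually (isOpen_interior.mem_nhds hint)
  obtain ⟨η, hη, hball⟩ := Metric.eventually_nhds_iff.1 h1
  have h2 : z + (sSup T + η / 2) • w ∈ interior D := by
    apply hball
    rw [Real.dist_eq, add_sub_cancel_left, abs_of_pos (by positivity)]
    linarith
  have h3 : sSup T + η / 2 ∈ T := ⟨by linarith [hmem.1], interior_subset h2⟩
  have h4 := le_csSup hbdd h3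
  linarith

/-- thin sets around a segment -/
theorem Geo_thin {d : ℕ} (hd : 2 ≤ d) (a b : Fin d → ℝ) {η : ℝ} (hη : 0 < η) :
    ∃ r : ℝ, 0 < r ∧ ∀ s : ℝ, 0 < s → s ≤ r →
      (volume (Metric.cthickening s (segment ℝ a b))).toReal < η := by
  have hcomp : IsCompact (segment ℝ a b) := by
    rw [segment_eq_image]
    exact isCompact_Icc.image (by fun_prop)
  have h0 : volume (segment ℝ a b) = 0 := by
    have h1 : segment ℝ a b ⊆ (AffineSubspace.mk' a (ℝ ∙ (b - a)) : Set (Fin d → ℝ)) := by
      rintro _ ⟨s, t, hs, ht, hst, rfl⟩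
      rw [SetLike.mem_coe, AffineSubspace.mem_mk', vsub_eq_sub]
      have : s • a + t • b - a = t • (b - a) := by
        have hs' : s = 1 - t := by linarith
        rw [hs', sub_smul, one_smul, smul_sub]
        abel
      rw [this]
      exact Submodule.smul_mem _ _ (Submodule.mem_span_singleton_self _)
    refine measure_mono_null h1 (Measure.addHaar_affineSubspace volume _ ?_)
    intro htop
    have h2 : (ℝ ∙ (b - a)) = (⊤ : Submodule ℝ (Fin d → ℝ)) := by
      have := congrArg AffineSubspace.direction htop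
      rwa [AffineSubspace.direction_mk', AffineSubspace.direction_top] at this
    have h3 : Module.finrank ℝ (ℝ ∙ (b - a)) ≤ 1 := by
      have h4 := finrank_span_le_card (R := ℝ) ({b - a} : Set (Fin d → ℝ))
      simpa using h4
    rw [h2, finrank_top, Module.finrank_fin_fun] at h3
    omega
  have h1 := tendsto_measure_cthickening_of_isCompact (μ := (volume : Measure (Fin d → ℝ))) hcomp
  rw [h0] at h1
  have h2 : ∀ᶠ s in nhds (0 : ℝ), volume (Metric.cthickening s (segment ℝ a b)) <
      ENNReal.ofReal η := h1.eventually (gt_mem_nhds (by simpa using hη))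
  obtain ⟨r, hr, hr2⟩ := Metric.eventually_nhds_iff.1 h2
  refine ⟨r / 2, by positivity, ?_⟩
  intro s hs hsr
  have h3 := hr2 (y := s) (by
    rw [Real.dist_eq, sub_zero, abs_of_pos hs]
    linarith)
  rw [← ENNReal.toReal_ofReal hη.le]
  exact (ENNReal.toReal_lt_toReal (h3.trans ENNReal.ofReal_lt_top).ne ENNReal.ofReal_ne_top).2 h3

/-- the thickening of a segment is star shaped about its ends -/
theorem Geo_star {d : ℕ} (a b y : Fin d → ℝ) {r s : ℝ} (hs0 : 0 ≤ s) (hs1 : s ≤ 1)
    (hy : y ∈ Metric.cthickening r (segment ℝ a b)) :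
    (1 - s) • a + s • y ∈ Metric.cthickening r (segment ℝ a b) := by
  rcases le_or_gt r 0 with hr | hr
  · have hcomp : IsCompact (segment ℝ a b) := by
      rw [segment_eq_image]
      exact isCompact_Icc.image (by fun_prop)
    rw [Metric.cthickening_of_nonpos hr, hcomp.isClosed.closure_eq] at hy ⊢
    exact convex_segment a b (left_mem_segment ℝ a b) hy (by linarith) hs0 (by ring)
  · have hcomp : IsCompact (segment ℝ a b) := by
      rw [segment_eq_image]
      exact isCompact_Icc.image (by fun_prop)
    rw [hcomp.cthickening_eq_biUnion_closedBall hr.le] at hy ⊢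
    obtain ⟨p, hp, hyp⟩ := mem_iUnion₂.1 hy
    refine mem_iUnion₂.2 ⟨(1 - s) • a + s • p,
      convex_segment a b (left_mem_segment ℝ a b) hp (by linarith) hs0 (by ring), ?_⟩
    rw [Metric.mem_closedBall, dist_eq_norm] at hyp ⊢
    have : (1 - s) • a + s • y - ((1 - s) • a + s • p) = s • (y - p) := by
      rw [smul_sub]
      abel
    rw [this, norm_smul, Real.norm_eq_abs, abs_of_nonneg hs0]
    have h0 := norm_nonneg (y - p)
    nlinarith

/-- Bernoulli -/
theorem Geo_bern (d : ℕ) (l : ℝ) (h1 : l ≤ 1) : 1 - (1 - l) ^ d ≤ d * l := by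
  have := one_add_mul_le_pow (a := -l) (by linarith) d
  have e1 : (1 : ℝ) + -l = 1 - l := by ring
  rw [e1] at this
  linarith

/-- volume of a star shaped set minus its contraction -/
theorem Geo_shell {d : ℕ} {S : Set (Fin d → ℝ)} (hS : MeasurableSet S) (hfin : volume S ≠ ⊤)
    (a : Fin d → ℝ) (hst : ∀ y ∈ S, ∀ s : ℝ, 0 ≤ s → s ≤ 1 → (1 - s) • a + s • y ∈ S)
    {l : ℝ} (h0 : 0 ≤ l) (h1 : l < 1) :
    (volume (S \ ((fun y => l • a + (1 - l) • y) '' S))).toReal ≤ d * l * (volume S).toReal := by
  set M : Set (Fin d → ℝ) := (fun y => l • a + (1 - l) • y) '' S with hM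
  have hMS : M ⊆ S := by
    rintro _ ⟨y, hy, rfl⟩
    have := hst y hy (1 - l) (by linarith) (by linarith)
    rwa [sub_sub_cancel] at this
  have hvM : volume M = ENNReal.ofReal ((1 - l) ^ d) * volume S := by
    have e1 : M = (fun y => l • a + y) '' ((1 - l) • S) := by
      rw [hM, ← image_smul, image_image]
    rw [e1, image_add_left, measure_preimage_add, Measure.addHaar_smul, Module.finrank_fin_fun,
      abs_of_nonneg (by positivity)]
  have hMm : MeasurableSet M := by
    have e1 : M = (fun y => (1 - l)⁻¹ • (y - l • a)) ⁻¹' S := by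
      ext y
      constructor
      · rintro ⟨z, hz, rfl⟩
        simp only [mem_preimage, add_sub_cancel_left]
        rw [smul_smul, inv_mul_cancel₀ (by linarith), one_smul]
        exact hz
      · intro hy
        refine ⟨_, hy, ?_⟩
        simp only
        rw [smul_smul, mul_inv_cancel₀ (by linarith), one_smul]
        abel
    rw [e1]
    exact (by fun_prop : Measurable fun y : Fin d → ℝ => (1 - l)⁻¹ • (y - l • a)) hS
  have hfM : volume M ≠ ⊤ := ((measure_mono hMS).trans_lt (lt_top_iff_ne_top.2 hfin)).ne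
  rw [measure_sdiff hMS hMm.nullMeasurableSet hfM, ENNReal.toReal_sub_of_le (measure_mono hMS) hfin,
    hvM, ENNReal.toReal_mul, ENNReal.toReal_ofReal (by
      have : 0 ≤ 1 - l := by linarith
      positivity)]
  have h2 := Geo_bern d l h1.le
  have h3 : 0 ≤ (volume S).toReal := ENNReal.toReal_nonneg
  nlinarith

end Pool.Agent.SYB
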