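import Pool.Agent.SYB.Bi
import Pool.Agent.SYB.Geo

/-! # Local maximisers: extreme points -/

set_option autoImplicit false

namespace Pool.Agent.SYB

open MeasureTheory Set Pool.Agent.SYL

/-- extreme points are not interior points -/
theorem Ext_notint {d : ℕ} (hd : 1 ≤ d) {D : Set (Fin d → ℝ)} {x : Fin d → ℝ}
    (hx : x ∈ extremePoints ℝ D) : x ∉ interior D := by
  intro hi
  obtain ⟨r, hr, hb⟩ := Metric.isOpen_iff.1 isOpen_interior x hi
  set w : Fin d → ℝ := Pi.single ⟨0, hd⟩ (r / 2) with hw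
  have hwn : ‖w‖ = r / 2 := by
    rw [hw, Pi.norm_single, Real.norm_eq_abs, abs_of_pos (by positivity)]
  have h1 : x + w ∈ D := interior_subset (hb (by
    rw [Metric.mem_ball, dist_eq_norm, add_sub_cancel_left, hwn]
    linarith))
  have h2 : x - w ∈ D := interior_subset (hb (by
    rw [Metric.mem_ball, dist_eq_norm, sub_sub_cancel_left, norm_neg, hwn]
    linarith))
  have h3 : x ∈ openSegment ℝ (x + w) (x - w) := by
    refine ⟨1 / 2, 1 / 2, by norm_num, by norm_num, by norm_num, ?_⟩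
    rw [← smul_add]
    have : x + w + (x - w) = (2 : ℝ) • x := by
      rw [two_smul]
      abel
    rw [this, smul_smul]
    norm_num
  have h4 := hx.2 h1 h2 h3
  have h5 : w = 0 := by
    have := congrArg (fun y => y - x) h4
    simpa using this
  rw [h5, norm_zero] at hwn
  linarith

/-- cutting off a small cap at an extreme point -/
theorem Ext_cut {d : ℕ} {D : Set (Fin d → ℝ)} (hD : IsBody D) {x z0 : Fin d → ℝ}
    (hx : x ∈ extremePoints ℝ D) (hz : z0 ∈ interior D) {s : ℝ} (hs : 0 < s)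
    (hsz : s ≤ dist z0 x) :
    ∃ (f : (Fin d → ℝ) →L[ℝ] ℝ) (u : ℝ), f x < u ∧ u < f z0 ∧
      (∀ y ∈ D, f y ≤ u → dist y x < s) ∧ IsBody (D ∩ {y | u ≤ f y}) ∧
      0 < vol (D \ (D ∩ {y | u ≤ f y})) ∧ ∀ y, y ∈ D \ (D ∩ {y | u ≤ f y}) ↔ y ∈ D ∧ f y < u := by
  obtain ⟨f, u, h1, h2⟩ := Geo_cap hD.2.1 hD.1 hx hs
  have h3 : u < f z0 := by
    by_contra hcon
    have := h2 z0 (interior_subset hz) (not_lt.1 hcon)
    linarith
  have hm : ∀ y, y ∈ D \ (D ∩ {y | u ≤ f y}) ↔ y ∈ D ∧ f y < u := by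
    intro y
    constructor
    · rintro ⟨hy, hn⟩
      refine ⟨hy, ?_⟩
      by_contra hcon
      exact hn ⟨hy, not_lt.1 hcon⟩
    · rintro ⟨hy, hn⟩
      exact ⟨hy, fun h => absurd h.2 (not_le.2 hn)⟩
  refine ⟨f, u, h1, h3, h2, ⟨?_, ?_, ?_⟩, ?_, hm⟩
  · refine hD.1.inter ?_
    exact convex_halfSpace_ge f.isLinear u
  · exact hD.2.1.inter_right (isClosed_le continuous_const f.continuous)
  · refine ⟨z0, ?_⟩
    have ho : IsOpen (interior D ∩ {y | u < f y}) :=
      isOpen_interior.inter (isOpen_lt continuous_const f.continuous)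
    have hsub : interior D ∩ {y | u < f y} ⊆ D ∩ {y | u ≤ f y} :=
      fun y hy => ⟨interior_subset hy.1, (show u < f y from hy.2).le⟩
    exact interior_maximal hsub ho ⟨hz, h3⟩
  · have hcl : x ∈ closure (interior D) := by
      rw [hD.1.closure_interior_eq_closure_of_nonempty_interior hD.2.2]
      exact subset_closure hx.1
    have ho : IsOpen {y | f y < u} := isOpen_lt f.continuous continuous_const
    obtain ⟨y, hy1, hy2⟩ := mem_closure_iff.1 hcl _ ho h1
    rw [vol, ENNReal.toReal_pos_iff]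
    refine ⟨?_, ((measure_mono sdiff_subset).trans_lt hD.2.1.measure_lt_top)⟩
    have hsub : {y | f y < u} ∩ interior D ⊆ D \ (D ∩ {y | u ≤ f y}) :=
      fun w hw => (hm w).2 ⟨interior_subset hw.2, hw.1⟩
    exact ((ho.inter isOpen_interior).measure_pos volume ⟨y, hy1, hy2⟩).trans_le
      (measure_mono hsub)

theorem Ext_seg {d : ℕ} {x z0 y : Fin d → ℝ} {s : ℝ} (h : dist y x ≤ s) :
    y ∈ Metric.cthickening s (segment ℝ z0 x) :=
  Metric.mem_cthickening_of_dist_le y x s _ (right_mem_segment ℝ z0 x) h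

theorem Ext_cfin {d : ℕ} (a b : Fin d → ℝ) (s : ℝ) :
    volume (Metric.cthickening s (segment ℝ a b)) ≠ ⊤ := by
  have hcomp : IsCompact (segment ℝ a b) := by
    rw [segment_eq_image]
    exact isCompact_Icc.image (by fun_prop)
  exact hcomp.cthickening.measure_lt_top.ne

/-- extreme points are above the level -/
theorem Ext_A {d : ℕ} (hd : 2 ≤ d) {D : Set (Fin d → ℝ)} (hL : LocMax d D) {x : Fin d → ℝ}
    (hx : x ∈ extremePoints ℝ D) : tau d D ≤ phi D x := by
  by_contra hcon
  have hcon' := not_le.1 hcon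
  have hD := hL.1
  obtain ⟨C, δ, hC, hδ, hcut⟩ := Bi_cut hL
  obtain ⟨z0, hz0⟩ := hD.2.2
  set c := (tau d D - phi D x) / 2 with hc
  have hc0 : 0 < c := by
    rw [hc]
    linarith
  have hcont : ∀ᶠ y in nhds x, phi D y < tau d D - c :=
    (Bi_phi_cont hD.2.1).continuousAt.eventually_lt continuousAt_const (by
      rw [hc]
      linarith)
  obtain ⟨r0, hr0, hr0b⟩ := Metric.eventually_nhds_iff.1 hcont
  obtain ⟨r1, hr1, hr1b⟩ := Geo_thin hd z0 x (lt_min hδ (div_pos hc0 hC))
  have hne : z0 ≠ x := fun h => Ext_notint (by omega) hx (h ▸ hz0)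
  set s := min r0 (min r1 (dist z0 x)) with hs
  have hs0 : 0 < s := lt_min hr0 (lt_min hr1 (dist_pos.2 hne))
  obtain ⟨f, u, h1, h2, h3, h4, h5, h6⟩ := Ext_cut hD hx hz0 hs0
    ((min_le_right _ _).trans (min_le_right _ _))
  set A := D \ (D ∩ {y | u ≤ f y}) with hA
  have hAs : ∀ y ∈ A, dist y x < s := fun y hy => h3 y ((h6 y).1 hy).1 ((h6 y).1 hy).2.le
  have h7 : vol A < min δ (c / C) := by
    refine lt_of_le_of_lt ?_ (hr1b s hs0 ((min_le_right _ _).trans (min_le_left _ _)))
    exact ENNReal.toReal_mono (Ext_cfin _ _ _) (measure_mono fun y hy => Ext_seg (hAs y hy).le)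
  have h8 := hcut _ h4 inter_subset_left (h7.trans_le (min_le_left _ _))
  have hAm : MeasurableSet A := hD.2.1.measurableSet.diff h4.2.1.measurableSet
  have hAf : volume A ≠ ⊤ := ((measure_mono sdiff_subset).trans_lt hD.2.1.measure_lt_top).ne
  have hint : IntegrableOn (fun y => phi D y - tau d D) A :=
    (((Bi_phi_cont hD.2.1).sub continuous_const).continuousOn.integrableOn_compact
      hD.2.1).mono_set sdiff_subset
  have h9 : ∫ y in A, (phi D y - tau d D) ≤ -(c * vol A) := by
    have e1 : ∫ _ in A, (-c) = -(c * vol A) := by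
      rw [setIntegral_const, smul_eq_mul, mul_neg, mul_comm]
      rfl
    rw [← e1]
    refine setIntegral_mono_on hint (integrableOn_const hAf) hAm fun y hy => ?_
    have := hr0b ((hAs y hy).trans_le (min_le_left _ _))
    linarith
  have h10 : C * vol A < c := by
    have := h7.trans_le (min_le_right _ _)
    rw [lt_div_iff₀ hC] at this
    linarith
  have h11 := h8.trans h9
  nlinarith

/-- the cap lies below the level if its frontier part does -/
theorem Ext_line {d : ℕ} (hd : 2 ≤ d) {D : Set (Fin d → ℝ)} (hD : IsBody D)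
    (f : (Fin d → ℝ) →L[ℝ] ℝ) (u t : ℝ)
    (hfr : ∀ y ∈ frontier D, f y ≤ u → phi D y ≤ t) {q : Fin d → ℝ} (hq : q ∈ D)
    (hqu : f q ≤ u) : phi D q ≤ t := by
  obtain ⟨w, hw, hw0⟩ : ∃ w ∈ LinearMap.ker (f : (Fin d → ℝ) →ₗ[ℝ] ℝ), w ≠ 0 := by
    apply Submodule.exists_mem_ne_zero_of_ne_bot
    apply LinearMap.ker_ne_bot_of_finrank_lt
    rw [Module.finrank_self, Module.finrank_fin_fun]
    omega
  have hfw : f w = 0 := hw
  obtain ⟨t1, ht1, ha⟩ := Geo_ray hD.2.1 hq hw0
  obtain ⟨t2, ht2, hb⟩ := Geo_ray hD.2.1 hq (neg_ne_zero.2 hw0)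
  have ha1 : phi D (q + t1 • w) ≤ t := by
    apply hfr _ ha
    rw [map_add, map_smul, hfw, smul_zero, add_zero]
    exact hqu
  have hb1 : phi D (q + t2 • -w) ≤ t := by
    apply hfr _ hb
    rw [map_add, map_smul, map_neg, hfw, neg_zero, smul_zero, add_zero]
    exact hqu
  rcases eq_or_lt_of_le ht1 with h0 | h0
  · rw [← h0, zero_smul, add_zero] at ha1
    exact ha1
  · have hpos : 0 < t1 + t2 := by linarith
    have h1 := (Bi_phi_conv hD.2.1).2 (mem_univ (q + t1 • w)) (mem_univ (q + t2 • -w))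
      (div_nonneg ht2 hpos.le) (div_nonneg ht1 hpos.le)
      (by rw [← add_div, add_comm t2 t1, div_self hpos.ne'])
    have h2 : (t2 / (t1 + t2)) • (q + t1 • w) + (t1 / (t1 + t2)) • (q + t2 • -w) = q := by
      ext i
      simp only [Pi.add_apply, Pi.smul_apply, Pi.neg_apply, smul_eq_mul]
      field_simp
      ring
    rw [h2] at h1
    simp only [smul_eq_mul] at h1
    have h3 : t2 / (t1 + t2) * phi D (q + t1 • w) + t1 / (t1 + t2) * phi D (q + t2 • -w) ≤
        t2 / (t1 + t2) * t + t1 / (t1 + t2) * t :=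
      add_le_add (mul_le_mul_of_nonneg_left ha1 (div_nonneg ht2 hpos.le))
        (mul_le_mul_of_nonneg_left hb1 (div_nonneg ht1 hpos.le))
    have h4 : t2 / (t1 + t2) * t + t1 / (t1 + t2) * t = t := by
      field_simp
      ring
    linarith

/-- near every extreme point the level is exceeded on the frontier -/
theorem Ext_C {d : ℕ} (hd : 2 ≤ d) {D : Set (Fin d → ℝ)} (hL : LocMax d D) {x : Fin d → ℝ}
    (hx : x ∈ extremePoints ℝ D) : x ∈ closure {y ∈ frontier D | tau d D < phi D y} := by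
  by_contra hcon
  have hD := hL.1
  obtain ⟨C, δ, hC, hδ, hcut⟩ := Bi_cut hL
  obtain ⟨z0, hz0, hz1⟩ := Bi_low hD
  obtain ⟨r0, hr0, hr0b⟩ : ∃ r > 0, ∀ y ∈ frontier D, dist y x < r → phi D y ≤ tau d D := by
    rw [Metric.mem_closure_iff] at hcon
    push Not at hcon
    obtain ⟨r, hr, hrb⟩ := hcon
    refine ⟨r, hr, fun y hy hyr => ?_⟩
    by_contra h
    have := hrb y ⟨hy, not_le.1 h⟩
    rw [dist_comm] at this
    linarith
  set η := tau d D - phi D z0 with hη
  have hη0 : 0 < η := by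
    rw [hη]
    linarith
  have hd0 : (0 : ℝ) < d := by
    have : 0 < d := by omega
    exact_mod_cast this
  obtain ⟨r1, hr1, hr1b⟩ := Geo_thin hd z0 x (η := min δ (η / (4 * d * C)))
    (lt_min hδ (by positivity))
  have hne : z0 ≠ x := fun h => Ext_notint (by omega) hx (h ▸ hz0)
  set s := min r0 (min r1 (dist z0 x)) with hs
  have hs0 : 0 < s := lt_min hr0 (lt_min hr1 (dist_pos.2 hne))
  obtain ⟨f, u, h1, h2, h3, h4, h5, h6⟩ := Ext_cut hD hx hz0 hs0
    ((min_le_right _ _).trans (min_le_right _ _))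
  set A := D \ (D ∩ {y | u ≤ f y}) with hA
  have hAs : ∀ y ∈ A, dist y x < s := fun y hy => h3 y ((h6 y).1 hy).1 ((h6 y).1 hy).2.le
  have hthin := hr1b s hs0 ((min_le_right _ _).trans (min_le_left _ _))
  set S := D ∩ Metric.cthickening s (segment ℝ z0 x) with hS
  have hSm : MeasurableSet S := hD.2.1.measurableSet.inter Metric.isClosed_cthickening.measurableSet
  have hSf : volume S ≠ ⊤ := ((measure_mono inter_subset_left).trans_lt hD.2.1.measure_lt_top).ne
  have hSv : vol S < min δ (η / (4 * d * C)) :=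
    lt_of_le_of_lt (ENNReal.toReal_mono (Ext_cfin _ _ _) (measure_mono inter_subset_right)) hthin
  have hAS : A ⊆ S := fun y hy => ⟨hy.1, Ext_seg (hAs y hy).le⟩
  have hAm : MeasurableSet A := hD.2.1.measurableSet.diff h4.2.1.measurableSet
  have hAf : volume A ≠ ⊤ := ((measure_mono sdiff_subset).trans_lt hD.2.1.measure_lt_top).ne
  have hAv : vol A ≤ vol S := ENNReal.toReal_mono hSf (measure_mono hAS)
  have h8 := hcut _ h4 inter_subset_left (hAv.trans_lt (hSv.trans_le (min_le_left _ _)))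
  -- the level on the cap
  have hcap : ∀ q ∈ D, f q ≤ u → phi D q ≤ tau d D := by
    intro q hq hqu
    refine Ext_line hd hD f u (tau d D) (fun y hy hyu => ?_) hq hqu
    exact hr0b y hy ((h3 y (hD.2.1.isClosed.frontier_subset hy) hyu).trans_le (min_le_left _ _))
  have hS0 : 0 < vol S := h5.trans_le hAv
  set l := vol A / (2 * d * vol S) with hl
  have hl0 : 0 < l := by positivity
  have hl1 : l < 1 := by
    rw [hl, div_lt_one (by positivity)]
    have : (2 : ℝ) ≤ d := by exact_mod_cast hd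
    nlinarith
  set Φ : (Fin d → ℝ) → (Fin d → ℝ) := fun y => l • z0 + (1 - l) • y with hΦ
  have hΦc : Continuous Φ := by fun_prop
  have hshell := Geo_shell hSm hSf z0 (fun y hy t ht0 ht1 =>
    ⟨hD.1 (interior_subset hz0) hy.1 (by linarith) ht0 (by ring), Geo_star z0 x y ht0 ht1 hy.2⟩)
    hl0.le hl1
  set H := Φ '' D with hH
  have hHm : MeasurableSet H := (hD.2.1.image hΦc).measurableSet
  have hsub : A \ H ⊆ S \ (Φ '' S) := fun y hy =>
    ⟨hAS hy.1, fun h => hy.2 (image_mono inter_subset_left h)⟩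
  have hAH : vol (A \ H) ≤ d * l * vol S := by
    refine le_trans (ENNReal.toReal_mono ?_ (measure_mono hsub)) hshell
    exact ((measure_mono sdiff_subset).trans_lt (lt_top_iff_ne_top.2 hSf)).ne
  have hsplit : vol A = vol (A ∩ H) + vol (A \ H) := by
    unfold vol
    rw [← measure_inter_add_sdiff A hHm, ENNReal.toReal_add]
    · exact ((measure_mono inter_subset_left).trans_lt (lt_top_iff_ne_top.2 hAf)).ne
    · exact ((measure_mono sdiff_subset).trans_lt (lt_top_iff_ne_top.2 hAf)).ne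
  have hint : IntegrableOn (fun y => phi D y - tau d D) A :=
    (((Bi_phi_cont hD.2.1).sub continuous_const).continuousOn.integrableOn_compact
      hD.2.1).mono_set sdiff_subset
  have h9 : ∫ y in A, (phi D y - tau d D) ≤ -(l * η * vol (A ∩ H)) := by
    rw [← integral_inter_add_sdiff hHm hint]
    have e1 : ∫ y in A ∩ H, (phi D y - tau d D) ≤ -(l * η * vol (A ∩ H)) := by
      have e2 : ∫ _ in A ∩ H, (-(l * η)) = -(l * η * vol (A ∩ H)) := by
        rw [setIntegral_const, smul_eq_mul, mul_neg, mul_comm]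
        rfl
      rw [← e2]
      refine setIntegral_mono_on (hint.mono_set inter_subset_left) (integrableOn_const
        ((measure_mono inter_subset_left).trans_lt (lt_top_iff_ne_top.2 hAf)).ne)
        (hAm.inter hHm) ?_
      rintro y ⟨hyA, q, hq, rfl⟩
      have hfy := ((h6 _).1 hyA).2
      have hfe : f (Φ q) = l * f z0 + (1 - l) * f q := by
        simp only [hΦ, map_add, map_smul, smul_eq_mul]
      rw [hfe] at hfy
      have hfq : f q ≤ u := by
        by_contra hc
        have := not_le.1 hc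
        nlinarith
      have hq1 := hcap q hq hfq
      have hq2 := (Bi_phi_conv hD.2.1).2 (mem_univ z0) (mem_univ q) hl0.le
        (by linarith : (0 : ℝ) ≤ 1 - l) (by ring)
      simp only [smul_eq_mul] at hq2
      have hq3 : (1 - l) * phi D q ≤ (1 - l) * tau d D :=
        mul_le_mul_of_nonneg_left hq1 (by linarith)
      show phi D (l • z0 + (1 - l) • q) - tau d D ≤ -(l * η)
      rw [hη]
      linarith
    have e3 : ∫ y in A \ H, (phi D y - tau d D) ≤ 0 := by
      refine setIntegral_nonpos (hAm.diff hHm) fun y hy => ?_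
      have := hcap y ((h6 y).1 hy.1).1 ((h6 y).1 hy.1).2.le
      linarith
    linarith
  have h10 : l * η * (vol A - d * l * vol S) ≤ C * vol A ^ 2 := by
    have e1 : l * η * (vol A - d * l * vol S) ≤ l * η * vol (A ∩ H) := by
      apply mul_le_mul_of_nonneg_left _ (by positivity)
      linarith
    linarith
  have h11 : d * l * vol S = vol A / 2 := by
    rw [hl]
    field_simp
  rw [h11] at h10
  have h12 : l * η * (vol A - vol A / 2) = η / (4 * d * vol S) * vol A ^ 2 := by
    rw [hl]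
    field_simp
    ring
  rw [h12] at h10
  have h13 : η / (4 * d * vol S) ≤ C := le_of_mul_le_mul_right h10 (by positivity)
  rw [div_le_iff₀ (by positivity)] at h13
  have h14 := hSv.trans_le (min_le_right _ _)
  rw [lt_div_iff₀ (by positivity)] at h14
  linarith

end Pool.Agent.SYB
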