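import Pool.Agent.SYB.Ext

/-! # Local maximisers: frontier segments, and the main theorem -/

set_option autoImplicit false

namespace Pool.Agent.SYB

open MeasureTheory Set Filter Pool.Agent.SYL

/-- a point on the continuation of a chord from an interior point is outside -/
theorem Seg_out {d : ℕ} {D : Set (Fin d → ℝ)} (hD : Convex ℝ D) {x z0 : Fin d → ℝ}
    (hx : x ∈ frontier D) (hz : z0 ∈ interior D) {t : ℝ} (ht : 0 < t) :
    x + t • (x - z0) ∉ D := by
  intro h
  apply hx.2
  have h1 := hD.combo_interior_self_mem_interior hz h (a := t / (1 + t)) (b := 1 / (1 + t))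
    (by positivity) (by positivity) (by field_simp; ring)
  have h2 : (t / (1 + t)) • z0 + (1 / (1 + t)) • (x + t • (x - z0)) = x := by
    ext i
    simp only [Pi.add_apply, Pi.smul_apply, Pi.sub_apply, smul_eq_mul]
    field_simp
    ring
  rwa [h2] at h1

/-- hull of a body and a point -/
theorem Seg_body {d : ℕ} {D : Set (Fin d → ℝ)} (hD : IsBody D) (p : Fin d → ℝ) :
    IsBody (convexHull ℝ (insert p D)) := by
  refine ⟨convex_convexHull ℝ _, Geo_hull_compact (hD.2.1.insert p), ?_⟩
  obtain ⟨z, hz⟩ := hD.2.2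
  exact ⟨z, interior_mono ((subset_insert p D).trans (subset_convexHull ℝ _)) hz⟩

theorem Seg_mem {d : ℕ} {D : Set (Fin d → ℝ)} (hD : IsBody D) {p z : Fin d → ℝ}
    (hz : z ∈ convexHull ℝ (insert p D)) :
    ∃ t : ℝ, ∃ w ∈ D, 0 ≤ t ∧ t ≤ 1 ∧ z = p + t • (w - p) := by
  have hne : D.Nonempty := hD.2.2.mono interior_subset
  rw [convexHull_insert hne, hD.1.convexHull_eq, convexJoin_singleton_left] at hz
  obtain ⟨w, hw, hz2⟩ := mem_iUnion₂.1 hz
  obtain ⟨a, b, ha, hb, hab, rfl⟩ := hz2
  refine ⟨b, w, hw, hb, by linarith, ?_⟩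
  have : a = 1 - b := by linarith
  rw [this, sub_smul, one_smul, smul_sub]
  abel

/-- frontier points above the level lie on frontier segments which reach points below the level -/
theorem Seg_B {d : ℕ} {D : Set (Fin d → ℝ)} (hL : LocMax d D) {x : Fin d → ℝ}
    (hx : x ∈ frontier D) (hlev : tau d D < phi D x) :
    ∃ y ∈ frontier D, y ≠ x ∧ segment ℝ x y ⊆ frontier D ∧ phi D y ≤ tau d D := by
  have hD := hL.1
  obtain ⟨C, δ, hC, hδ, hadd⟩ := Bi_add hL
  obtain ⟨z0, hz0⟩ := hD.2.2
  have hxD : x ∈ D := hD.2.1.isClosed.frontier_subset hx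
  set p : ℕ → (Fin d → ℝ) := fun n => x + (1 / ((n : ℝ) + 1)) • (x - z0) with hp
  set K : ℕ → Set (Fin d → ℝ) := fun n => convexHull ℝ (insert (p n) D) with hK
  have hDK : ∀ n, D ⊆ K n := fun n => (subset_insert _ _).trans (subset_convexHull ℝ _)
  have hpout : ∀ n, p n ∉ D := fun n => Seg_out hD.1 hx hz0 (by positivity)
  have hpx : Tendsto p atTop (nhds x) := by
    have h1 : Tendsto (fun n : ℕ => (1 / ((n : ℝ) + 1))) atTop (nhds 0) :=
      tendsto_one_div_add_atTop_nhds_zero_nat
    have h2 := (h1.smul_const (x - z0)).const_add x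
    simpa [hp] using h2
  -- the difference has small volume
  have hnear : ∀ n, ∀ z ∈ K n, ∃ q ∈ D, dist z q ≤ dist (p n) x := by
    intro n z hz
    obtain ⟨t, w, hw, ht0, ht1, rfl⟩ := Seg_mem hD hz
    refine ⟨x + t • (w - x), (by
        have := hD.1 hxD hw (by linarith : (0 : ℝ) ≤ 1 - t) ht0 (by ring)
        have e : (1 - t) • x + t • w = x + t • (w - x) := by
          rw [sub_smul, one_smul, smul_sub]
          abel
        rwa [e] at this), ?_⟩
    rw [dist_eq_norm, dist_eq_norm]
    have : p n + t • (w - p n) - (x + t • (w - x)) = (1 - t) • (p n - x) := by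
      rw [sub_smul, one_smul, smul_sub, smul_sub, smul_sub]
      abel
    rw [this, norm_smul, Real.norm_eq_abs, abs_of_nonneg (by linarith)]
    have := norm_nonneg (p n - x)
    nlinarith
  have hthick : ∀ n, K n ⊆ Metric.cthickening (dist (p n) x) D := by
    intro n z hz
    obtain ⟨q, hq, hq2⟩ := hnear n z hz
    exact Metric.mem_cthickening_of_dist_le z q _ _ hq hq2
  have hvol : Tendsto (fun n => vol (K n \ D)) atTop (nhds 0) := by
    have h1 := tendsto_measure_cthickening_of_isCompact (μ := (volume : Measure (Fin d → ℝ))) hD.2.1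
    have h2 : Tendsto (fun n => dist (p n) x) atTop (nhds 0) :=
      tendsto_iff_dist_tendsto_zero.1 hpx
    have h3 := h1.comp h2
    have h4 : Tendsto (fun n => (volume (Metric.cthickening (dist (p n) x) D)).toReal) atTop
        (nhds (volume D).toReal) :=
      (ENNReal.tendsto_toReal hD.2.1.measure_lt_top.ne).comp h3
    have h5 : Tendsto (fun n => (volume (Metric.cthickening (dist (p n) x) D)).toReal - vol D)
        atTop (nhds 0) := by
      have := h4.sub_const (vol D)
      rwa [show (volume D).toReal - vol D = 0 from sub_self _] at this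
    refine squeeze_zero (fun n => ENNReal.toReal_nonneg) (fun n => ?_) h5
    have h6 := Bi_sdiff (Seg_body hD (p n)).2.1 hD.2.1 (hDK n)
    have h7 : vol (K n) ≤ (volume (Metric.cthickening (dist (p n) x) D)).toReal :=
      ENNReal.toReal_mono hD.2.1.cthickening.measure_lt_top.ne (measure_mono (hthick n))
    show vol (K n \ D) ≤ _
    linarith
  have hvolpos : ∀ n, 0 < vol (K n \ D) := by
    intro n
    have hb := Seg_body hD (p n)
    have hcl : p n ∈ closure (interior (K n)) := by
      rw [hb.1.closure_interior_eq_closure_of_nonempty_interior hb.2.2]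
      exact subset_closure (subset_convexHull ℝ _ (mem_insert _ _))
    have ho : IsOpen Dᶜ := hD.2.1.isClosed.isOpen_compl
    obtain ⟨y, hy1, hy2⟩ := mem_closure_iff.1 hcl _ ho (hpout n)
    rw [vol, ENNReal.toReal_pos_iff]
    refine ⟨?_, ((measure_mono sdiff_subset).trans_lt hb.2.1.measure_lt_top)⟩
    have hsub : Dᶜ ∩ interior (K n) ⊆ K n \ D := fun w hw => ⟨interior_subset hw.2, hw.1⟩
    exact ((ho.inter isOpen_interior).measure_pos volume ⟨y, hy1, hy2⟩).trans_le
      (measure_mono hsub)
  by_contra hcon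
  -- a uniform gap
  have hgap : ∃ c : ℝ, 0 < c ∧ ∃ N : ℕ, ∀ n ≥ N, ∀ z ∈ K n \ D, tau d D + c ≤ phi D z := by
    by_contra hg
    push Not at hg
    have hchoice : ∀ k : ℕ, ∃ n : ℕ, k ≤ n ∧ ∃ z ∈ K n \ D,
        phi D z < tau d D + 1 / ((k : ℝ) + 1) := by
      intro k
      obtain ⟨n, hn, z, hz, hz2⟩ := hg (1 / ((k : ℝ) + 1)) (by positivity) k
      exact ⟨n, hn, z, hz, hz2⟩
    choose n hn z hz hzlev using hchoice
    have hntop : Tendsto n atTop atTop := tendsto_atTop_mono hn tendsto_id
    have hpn : Tendsto (fun k => p (n k)) atTop (nhds x) := hpx.comp hntop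
    have hdn : Tendsto (fun k => dist (p (n k)) x) atTop (nhds 0) :=
      tendsto_iff_dist_tendsto_zero.1 hpn
    -- the points stay in a compact set
    have hbd : ∀ k, z k ∈ Metric.cthickening (dist z0 x) D := by
      intro k
      refine Metric.cthickening_mono ?_ D (hthick (n k) (hz k).1)
      rw [hp]
      simp only
      rw [dist_eq_norm, add_sub_cancel_left, norm_smul, Real.norm_eq_abs,
        abs_of_pos (by positivity), dist_comm z0 x, dist_eq_norm]
      have h1 : 1 / (((n k : ℕ) : ℝ) + 1) ≤ 1 := by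
        rw [div_le_one (by positivity)]
        have : (0 : ℝ) ≤ (n k : ℕ) := Nat.cast_nonneg _
        linarith
      have := norm_nonneg (x - z0)
      nlinarith
    obtain ⟨y, -, φ, hφ, hyt⟩ := hD.2.1.cthickening.tendsto_subseq hbd
    have hpφ : Tendsto (fun k => p (n (φ k))) atTop (nhds x) := hpn.comp hφ.tendsto_atTop
    -- y lies in D
    have hyD : y ∈ D := by
      have h1 : ∀ k, Metric.infDist (z (φ k)) D ≤ dist (p (n (φ k))) x := by
        intro k
        obtain ⟨q, hq, hq2⟩ := hnear _ _ (hz (φ k)).1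
        exact (Metric.infDist_le_dist_of_mem hq).trans hq2
      have h2 : Tendsto (fun k => Metric.infDist (z (φ k)) D) atTop (nhds 0) :=
        squeeze_zero (fun k => Metric.infDist_nonneg) h1 (hdn.comp hφ.tendsto_atTop)
      have h3 : Tendsto (fun k => Metric.infDist (z (φ k)) D) atTop (nhds (Metric.infDist y D)) :=
        (Metric.continuous_infDist_pt D).continuousAt.tendsto.comp hyt
      have h4 : Metric.infDist y D = 0 := tendsto_nhds_unique h3 h2
      exact (hD.2.1.isClosed.mem_iff_infDist_zero ⟨x, hxD⟩).2 h4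
    have hylev : phi D y ≤ tau d D := by
      have h1 : Tendsto (fun k => phi D (z (φ k))) atTop (nhds (phi D y)) :=
        (Bi_phi_cont hD.2.1).continuousAt.tendsto.comp hyt
      have h2 : Tendsto (fun k : ℕ => tau d D + 1 / (((φ k : ℕ) : ℝ) + 1)) atTop
          (nhds (tau d D + 0)) :=
        (tendsto_one_div_add_atTop_nhds_zero_nat.comp hφ.tendsto_atTop).const_add _
      rw [add_zero] at h2
      exact le_of_tendsto_of_tendsto' h1 h2 fun k => (hzlev (φ k)).le
    have hyx : y ≠ x := by
      rintro rfl
      linarith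
    -- the segment is in the frontier
    have hseg : segment ℝ x y ⊆ frontier D := by
      rintro _ ⟨a, b, ha, hb, hab, rfl⟩
      refine ⟨subset_closure (hD.1 hxD hyD ha hb hab), ?_⟩
      have h1 : Tendsto (fun k => a • p (n (φ k)) + b • z (φ k)) atTop
          (nhds (a • x + b • y)) := (hpφ.const_smul a).add (hyt.const_smul b)
      have h2 : ∀ k, a • p (n (φ k)) + b • z (φ k) ∈ (interior D)ᶜ := by
        intro k hk
        obtain ⟨t, w, hw, ht0, ht1, htz⟩ := Seg_mem hD (hz (φ k)).1
        have hkD := interior_subset hk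
        have hb1 : b ≤ 1 := by linarith
        apply (hz (φ k)).2
        rcases eq_or_lt_of_le (show b * t ≤ 1 by nlinarith) with h3 | h3
        · have h4 : t = 1 := by nlinarith
          rw [htz, h4, one_smul, add_sub_cancel]
          exact hw
        · -- z is between the point and w
          set q := p (n (φ k)) with hq
          have h5 : a • q + b • z (φ k) = q + (b * t) • (w - q) := by
            have : a = 1 - b := by linarith
            rw [htz, this]
            ext i
            simp only [Pi.add_apply, Pi.smul_apply, Pi.sub_apply, smul_eq_mul]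
            ring
          rw [h5] at hkD
          have h6 : 0 < 1 - b * t := by linarith
          have h7 := hD.1 hkD hw
            (show (0 : ℝ) ≤ (1 - t) / (1 - b * t) from div_nonneg (by linarith) h6.le)
            (show (0 : ℝ) ≤ (t - b * t) / (1 - b * t) from div_nonneg (by nlinarith) h6.le)
            (by
              rw [← add_div, div_eq_one_iff_eq h6.ne']
              ring)
          have h8 : ((1 - t) / (1 - b * t)) • (q + (b * t) • (w - q)) +
              ((t - b * t) / (1 - b * t)) • w = z (φ k) := by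
            rw [htz]
            ext i
            simp only [Pi.add_apply, Pi.smul_apply, Pi.sub_apply, smul_eq_mul]
            rw [div_mul_eq_mul_div, div_mul_eq_mul_div, ← add_div, div_eq_iff h6.ne']
            ring
          rwa [h8] at h7
      exact isClosed_compl_iff.2 isOpen_interior |>.mem_of_tendsto h1
        (Eventually.of_forall h2)
    exact hcon ⟨y, hseg (right_mem_segment ℝ x y), hyx, hseg, hylev⟩
  obtain ⟨c, hc, N, hN⟩ := hgap
  have hev : ∀ᶠ m in atTop, vol (K m \ D) < min δ (c / C) :=
    hvol.eventually (gt_mem_nhds (lt_min hδ (div_pos hc hC)))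
  obtain ⟨m, hm1, hm2⟩ := (hev.and (eventually_ge_atTop N)).exists
  have hb := Seg_body hD (p m)
  have h1 := hadd (K m) hb (hDK m) (hm1.trans_le (min_le_left _ _))
  have hfin : volume (K m \ D) ≠ ⊤ :=
    ((measure_mono sdiff_subset).trans_lt hb.2.1.measure_lt_top).ne
  have h2 : c * vol (K m \ D) ≤ ∫ y in K m \ D, (phi D y - tau d D) := by
    have e1 : ∫ _ in K m \ D, c = c * vol (K m \ D) := by
      rw [setIntegral_const, smul_eq_mul, mul_comm]
      rfl
    rw [← e1]
    refine setIntegral_mono_on (integrableOn_const hfin)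
      ((((Bi_phi_cont hD.2.1).sub continuous_const).continuousOn.integrableOn_compact
        hb.2.1).mono_set sdiff_subset) (hb.2.1.measurableSet.diff hD.2.1.measurableSet) ?_
    intro y hy
    have := hN m hm2 y hy
    linarith
  have h3 : C * vol (K m \ D) < c := by
    have := hm1.trans_le (min_le_right _ _)
    rw [lt_div_iff₀ hC] at this
    linarith
  have h4 := hvolpos m
  have h5 := h2.trans h1
  nlinarith

/-- frontier points which are not extreme lie on frontier segments -/
theorem Seg_E {d : ℕ} {D : Set (Fin d → ℝ)} (hD : IsBody D) {x : Fin d → ℝ}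
    (hx : x ∈ frontier D) (hne : x ∉ extremePoints ℝ D) :
    ∃ y ∈ frontier D, y ≠ x ∧ segment ℝ x y ⊆ frontier D := by
  have hxD : x ∈ D := hD.2.1.isClosed.frontier_subset hx
  obtain ⟨a, ha, b, hb, ⟨s, t, hs, ht, hst, hx2⟩, hax⟩ :
      ∃ a ∈ D, ∃ b ∈ D, x ∈ openSegment ℝ a b ∧ a ≠ x := by
    by_contra hcon
    push Not at hcon
    exact hne ⟨hxD, fun y hy z hz hyz => hcon y hy z hz hyz⟩
  have hseg : segment ℝ x a ⊆ frontier D := by
    rintro q ⟨l, m, hl, hm, hlm, rfl⟩
    refine ⟨subset_closure (hD.1 hxD ha hl hm hlm), ?_⟩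
    intro hq
    apply hx.2
    rcases eq_or_lt_of_le hm with h0 | h0
    · rw [← h0, zero_smul, add_zero, show l = 1 by linarith, one_smul] at hq
      exact hq
    · -- x is between the interior point and b
      have hden : 0 < s + m * t := by positivity
      have h1 := hD.1.combo_interior_self_mem_interior hq hb (div_pos hs hden)
        (div_nonneg (by positivity : 0 ≤ m * t) hden.le)
        (by rw [← add_div, div_self hden.ne'])
      have h2 : (s / (s + m * t)) • (l • x + m • a) + (m * t / (s + m * t)) • b = x := by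
        have hl' : l = 1 - m := by linarith
        ext i
        have hxi : s * a i + t * b i = x i := by
          have := congrFun hx2 i
          simpa using this
        simp only [Pi.add_apply, Pi.smul_apply, smul_eq_mul]
        rw [div_mul_eq_mul_div, div_mul_eq_mul_div, ← add_div, div_eq_iff hden.ne', hl']
        have ht' : t = 1 - s := by linarith
        rw [ht'] at hxi ⊢
        linear_combination m * hxi
      rwa [h2] at h1
  exact ⟨a, hseg (right_mem_segment ℝ x a), hax, hseg⟩

/-- frontier segments are dense in the frontier of a local maximiser -/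
theorem main {d : ℕ} (hd : 2 ≤ d) {D : Set (Fin d → ℝ)} (hL : LocMax d D) {x : Fin d → ℝ}
    (hx : x ∈ frontier D) {r : ℝ} (hr : 0 < r) :
    ∃ y ∈ frontier D, ∃ z ∈ frontier D, dist x y < r ∧ y ≠ z ∧ segment ℝ y z ⊆ frontier D ∧
      (x ∈ extremePoints ℝ D → phi D z ≤ tau d D ∧ tau d D < phi D y) := by
  by_cases hxe : x ∈ extremePoints ℝ D
  · have h1 := Ext_C hd hL hxe
    rw [Metric.mem_closure_iff] at h1
    obtain ⟨y, ⟨hy, hylev⟩, hyr⟩ := h1 r hr
    obtain ⟨z, hz, hne, hseg, hzl⟩ := Seg_B hL hy hylev
    exact ⟨y, hy, z, hz, hyr, hne.symm, hseg, fun _ => ⟨hzl, hylev⟩⟩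
  · obtain ⟨z, hz, hne, hseg⟩ := Seg_E hL.1 hx hxe
    exact ⟨x, hx, z, hz, by rw [dist_self]; exact hr, hne.symm, hseg, fun h => absurd h hxe⟩

end Pool.Agent.SYB
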